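import Pool.Agent.N862.PP.Par

/-!
# The square class at the prime of degree one from the norm (project PP of helper874)

By helper862. The main theorem is `ns : S_INT → S_NS`.
-/

set_option autoImplicit false
set_option linter.all false

open Polynomial IsDedekindDomain WithZero UniqueFactorizationMonoid
open scoped Classical

namespace Pool.Agent.N862.PP

open Pool.Agent.N874.PP

section gen

variable {O L : Type} [CommRing O] [IsDedekindDomain O] [Field L] [Algebra O L]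
    [IsFractionRing O L]

/-- a uniformizer at `𝔓` which is a unit at `𝔮` -/
theorem exists_unif {𝔓 𝔮 : HeightOneSpectrum O} (hne : 𝔓 ≠ 𝔮) :
    ∃ π : O, 𝔓.intValuation π = exp (-1 : ℤ) ∧ 𝔮.intValuation π = 1 := by
  obtain ⟨p, hp⟩ := 𝔓.intValuation_exists_uniformizer
  have hcop : IsCoprime (𝔓.asIdeal ^ 2) 𝔮.asIdeal := by
    apply IsCoprime.pow_left
    rw [Ideal.isCoprime_iff_sup_eq]
    exact 𝔓.isMaximal.coprime_of_ne 𝔮.isMaximal fun h => hne (HeightOneSpectrum.ext h)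
  obtain ⟨i, hi, j, hj, hij⟩ := Ideal.isCoprime_iff_exists.mp hcop
  refine ⟨p * j + i, ?_, ?_⟩
  · have h1 : p * j + i = p + (1 - p) * i := by
      linear_combination p * hij
    have h2 : 𝔓.intValuation ((1 - p) * i) < 𝔓.intValuation p := by
      have h3 : 𝔓.intValuation ((1 - p) * i) ≤ exp (-((2 : ℕ) : ℤ)) :=
        (𝔓.intValuation_le_pow_iff_mem _ 2).mpr (Ideal.mul_mem_left _ _ hi)
      refine h3.trans_lt ?_
      rw [hp, exp_lt_exp]
      norm_num
    rw [h1, Valuation.map_add_eq_of_lt_left _ h2, hp]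
  · rw [𝔮.intValuation_eq_one_iff_mem_primeCompl, Ideal.mem_primeCompl_iff]
    intro hm
    have h1 : (1 : O) = (p * j + i) + (1 - p) * j := by
      linear_combination - hij
    have h2 : (1 : O) ∈ 𝔮.asIdeal := by
      rw [h1]
      exact Ideal.add_mem _ hm (Ideal.mul_mem_left _ _ hj)
    exact 𝔮.isPrime.ne_top ((Ideal.eq_top_iff_one _).mpr h2)

/-- two prescribed valuations -/
theorem exists_two {𝔓 𝔮 : HeightOneSpectrum O} (hne : 𝔓 ≠ 𝔮) (m n : ℤ) :
    ∃ β : L, β ≠ 0 ∧ 𝔓.valuation L β = exp m ∧ 𝔮.valuation L β = exp n := by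
  obtain ⟨p, hp1, hp2⟩ := exists_unif hne
  obtain ⟨q, hq1, hq2⟩ := exists_unif hne.symm
  have hp0 : algebraMap O L p ≠ 0 := by
    intro h0
    have : p = 0 := IsFractionRing.injective O L (by rw [h0, map_zero])
    rw [this, map_zero] at hp2
    exact zero_ne_one hp2
  have hq0 : algebraMap O L q ≠ 0 := by
    intro h0
    have : q = 0 := IsFractionRing.injective O L (by rw [h0, map_zero])
    rw [this, map_zero] at hq2
    exact zero_ne_one hq2
  refine ⟨algebraMap O L p ^ (-m) * algebraMap O L q ^ (-n),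
    mul_ne_zero (zpow_ne_zero _ hp0) (zpow_ne_zero _ hq0), ?_, ?_⟩
  · rw [map_mul, map_zpow₀, map_zpow₀, HeightOneSpectrum.valuation_of_algebraMap,
      HeightOneSpectrum.valuation_of_algebraMap, hp1, hq2, one_zpow, mul_one, ← exp_zsmul]
    simp
  · rw [map_mul, map_zpow₀, map_zpow₀, HeightOneSpectrum.valuation_of_algebraMap,
      HeightOneSpectrum.valuation_of_algebraMap, hp2, hq1, one_zpow, one_mul, ← exp_zsmul]
    simp

theorem sq1_mul_sq {𝔓 : HeightOneSpectrum O} {x w : L} (hw : w ≠ 0) :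
    Sq1 𝔓 (x * w ^ 2) ↔ Sq1 𝔓 x := by
  have hw0 : 0 < 𝔓.valuation L w ^ 2 := by
    have : 𝔓.valuation L w ≠ 0 := (Valuation.ne_zero_iff _).mpr hw
    exact zero_lt_iff.mpr (pow_ne_zero 2 this)
  constructor
  · rintro ⟨s, hs⟩
    refine ⟨s / w, ?_⟩
    have e : x * w ^ 2 - s ^ 2 = (x - (s / w) ^ 2) * w ^ 2 := by
      field_simp
    rw [e, map_mul, map_mul, map_pow] at hs
    exact (mul_lt_mul_iff_left₀ hw0).mp hs
  · rintro ⟨s, hs⟩
    refine ⟨s * w, ?_⟩
    have e : x * w ^ 2 - (s * w) ^ 2 = (x - s ^ 2) * w ^ 2 := by ring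
    rw [e, map_mul, map_mul, map_pow]
    exact (mul_lt_mul_iff_left₀ hw0).mpr hs

end gen

section ns

variable {k K L O : Type} [Field k] [Field K] [Algebra k[X] K] [IsFractionRing k[X] K]
  [Field L] [Algebra K L] [Algebra k[X] L] [IsScalarTower k[X] K L] [CommRing O]
  [IsDedekindDomain O] [Algebra O L] [IsFractionRing O L] [Algebra k[X] O]
  [IsScalarTower k[X] O L] [IsIntegralClosure O k[X] L] {a b : k[X]} {θ : L}

/-- a common denominator -/
theorem exists_den (h : IsCub K a b θ) (x : L) :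
    ∃ (d : k[X]) (z : O), d ≠ 0 ∧ algebraMap k[X] L d * x = algebraMap O L z := by
  obtain ⟨t, ht, htr⟩ := exists_theta (K := K) (O := O) h
  obtain ⟨r, s, u, rfl⟩ := h.gen x
  obtain ⟨r1, r2, hr2, rfl⟩ := IsFractionRing.div_surjective (A := k[X]) r
  obtain ⟨s1, s2, hs2, rfl⟩ := IsFractionRing.div_surjective (A := k[X]) s
  obtain ⟨u1, u2, hu2, rfl⟩ := IsFractionRing.div_surjective (A := k[X]) u
  have hr0 := nonZeroDivisors.ne_zero hr2
  have hs0 := nonZeroDivisors.ne_zero hs2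
  have hu0 := nonZeroDivisors.ne_zero hu2
  have inj : ∀ c : k[X], c ≠ 0 → algebraMap k[X] L c ≠ 0 := fun c hc h0 =>
    hc (algL_inj (K := K) (by rw [h0, map_zero]))
  have h1 := inj _ hr0
  have h2 := inj _ hs0
  have h3 := inj _ hu0
  refine ⟨r2 * s2 * u2, algebraMap k[X] O (r1 * s2 * u2) + algebraMap k[X] O (r2 * s1 * u2) * t +
    algebraMap k[X] O (r2 * s2 * u1) * t ^ 2, mul_ne_zero (mul_ne_zero hr0 hs0) hu0, ?_⟩
  simp only [map_add, map_mul, map_pow, map_div₀, ht, ← IsScalarTower.algebraMap_apply k[X] O L,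
    ← IsScalarTower.algebraMap_apply k[X] K L]
  field_simp

/-- integrality at the primes over `Q` -/
theorem exists_den_Q (h : IsCub K a b θ) {Q : k[X]} (hQ : Irreducible Q) (x : L)
    (hx : ∀ 𝔓 : HeightOneSpectrum O, Ov Q 𝔓 → 𝔓.valuation L x ≤ 1) :
    ∃ (c : k[X]) (z : O), ¬ Q ∣ c ∧ algebraMap k[X] L c * x = algebraMap O L z := by
  obtain ⟨d, z, hd, hz⟩ := exists_den (K := K) (O := O) h x
  obtain ⟨c, hdc, hc⟩ :=
    (FiniteMultiplicity.of_not_isUnit hQ.not_isUnit hd).exists_eq_pow_mul_and_not_dvd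
  have hint : ∀ 𝔓 : HeightOneSpectrum O, 𝔓.valuation L (algebraMap k[X] L c * x) ≤ 1 := by
    intro 𝔓
    by_cases hov : Ov Q 𝔓
    · rw [map_mul, IsScalarTower.algebraMap_apply k[X] O L]
      exact mul_le_one' (𝔓.valuation_le_one _) (hx 𝔓 hov)
    · have h1 : 𝔓.valuation L (algebraMap k[X] L Q) = 1 := by
        rw [IsScalarTower.algebraMap_apply k[X] O L]
        exact 𝔓.valuation_eq_one_iff_notMem.mpr hov
      have h2 : algebraMap k[X] L Q ^ (multiplicity Q d) * (algebraMap k[X] L c * x) =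
          algebraMap O L z := by
        rw [← hz]
        conv_rhs => rw [hdc]
        rw [map_mul, map_pow]
        ring
      have h3 : 𝔓.valuation L (algebraMap O L z) ≤ 1 := 𝔓.valuation_le_one _
      rw [← h2, map_mul, map_pow, h1, one_pow, one_mul] at h3
      exact h3
  obtain ⟨z', hz'⟩ := HeightOneSpectrum.mem_integers_of_valuation_le_one L _ hint
  exact ⟨c, z', hc, hz'.symm⟩

theorem mem_J2_iff (hI : S_INT) (h6 : (6 : k) ≠ 0) (h : IsCub K a b θ)
    (hsq : Squarefree (dsc a b))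
    {Q : k[X]} (hQ : Irreducible Q) (hQb : Q ∣ b) (hns : ∀ z : k[X], ¬ Q ∣ z ^ 2 + a)
    {t : O} (ht : algebraMap O L t = θ) {c d : k[X]}
    (hm : algebraMap k[X] O c + algebraMap k[X] O d * t ∈ J2 Q a t) : Q ∣ c ∧ Q ∣ d := by
  apply nonres hQ hns
  by_contra hn
  apply J2_ne (K := K) (L := L) hI h6 h hsq hQ hQb ht
  apply cop_mem hQ hn (Q_mem_J2 Q a t)
  have e : algebraMap k[X] O (c ^ 2 + a * d ^ 2) =
      (algebraMap k[X] O c - algebraMap k[X] O d * t) *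
        (algebraMap k[X] O c + algebraMap k[X] O d * t) +
      algebraMap k[X] O d ^ 2 * (t ^ 2 + algebraMap k[X] O a) := by
    simp only [map_add, map_mul, map_pow]
    ring
  rw [e]
  exact Ideal.add_mem _ (Ideal.mul_mem_left _ _ hm) (Ideal.mul_mem_left _ _ (t_mem_J2 Q a t))

/-- The integral case. -/
theorem ns_int (hI : S_INT) (h6 : (6 : k) ≠ 0) (h : IsCub K a b θ)
    (hsq : Squarefree (dsc a b))
    {Q : k[X]} (hQ : Irreducible Q) (hQb : Q ∣ b) (hns : ∀ z : k[X], ¬ Q ∣ z ^ 2 + a)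
    {t : O} (ht : algebraMap O L t = θ)
    (htr : t ^ 3 + algebraMap k[X] O a * t + algebraMap k[X] O b = 0)
    {𝔓 𝔮 : HeightOneSpectrum O} (h1 : 𝔓.asIdeal = J1 Q t) (h2 : 𝔮.asIdeal = J2 Q a t)
    {y : O} (hy1 : y ∉ 𝔓.asIdeal) (hy2 : y ∉ 𝔮.asIdeal)
    (hn : IsSquare (Algebra.norm K (algebraMap O L y)))
    (hs : Sq1 𝔮 (algebraMap O L y)) : Sq1 𝔓 (algebraMap O L y) := by
  have hv1 : 𝔓.valuation L (algebraMap O L y) = 1 := 𝔓.valuation_eq_one_iff_notMem.mpr hy1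
  have hv2 : 𝔮.valuation L (algebraMap O L y) = 1 := 𝔮.valuation_eq_one_iff_notMem.mpr hy2
  obtain ⟨v, hv⟩ := (hI k K L a b θ h6 h hsq _).mp (isInt (L := L) y)
  -- the norm
  obtain ⟨r, hr⟩ := hn
  rw [norm_crd h hv] at hr
  have hint : IsIntegral k[X] r := by
    refine IsIntegral.of_pow (n := 2) (by norm_num) ?_
    rw [sq, ← hr]
    exact isIntegral_algebraMap
  obtain ⟨m, rfl⟩ := IsIntegrallyClosed.isIntegral_iff.mp hint
  rw [← map_mul] at hr
  have hm := IsFractionRing.injective k[X] K hr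
  -- the square root at `𝔮`
  obtain ⟨s, hs⟩ := hs
  rw [hv2] at hs
  have hs1 : 𝔮.valuation L s ≤ 1 := by
    by_contra hgt
    push Not at hgt
    have h3 : 𝔮.valuation L (algebraMap O L y) < 𝔮.valuation L (s ^ 2) := by
      rw [hv2, map_pow]
      exact one_lt_pow' hgt (by norm_num)
    have h4 : 𝔮.valuation L (algebraMap O L y - s ^ 2) = 𝔮.valuation L (s ^ 2) := by
      rw [Valuation.map_sub_swap]
      exact Valuation.map_sub_eq_of_lt_left _ h3
    rw [h4, ] at hs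
    exact absurd (hv2 ▸ h3) (not_lt.mpr hs.le)
  obtain ⟨z, hz⟩ := 𝔮.exists_valuation_sub_lt_of_integer hs1 1
  rw [Units.val_one] at hz
  have hyz : y - z ^ 2 ∈ J2 Q a t := by
    rw [← h2, ← 𝔮.valuation_lt_one_iff_mem (K := L)]
    change 𝔮.valuation L (algebraMap O L (y - z ^ 2)) < 1
    have e : algebraMap O L (y - z ^ 2) = (algebraMap O L y - s ^ 2) -
        (algebraMap O L z - s) * (algebraMap O L z + s) := by
      rw [map_sub, map_pow]
      ring
    rw [e]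
    refine Valuation.map_sub_lt _ hs ?_
    rw [map_mul]
    have h5 : 𝔮.valuation L (algebraMap O L z + s) ≤ 1 :=
      Valuation.map_add_le _ (𝔮.valuation_le_one _) hs1
    calc 𝔮.valuation L (algebraMap O L z - s) * 𝔮.valuation L (algebraMap O L z + s)
        ≤ 𝔮.valuation L (algebraMap O L z - s) * 1 := mul_le_mul_right h5 _
      _ = 𝔮.valuation L (algebraMap O L z - s) := mul_one _
      _ < 1 := hz
  obtain ⟨z0, z1, hz01⟩ := J2_rep (K := K) (L := L) hI h6 h hsq (Q := Q) ht z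
  set w : O := algebraMap k[X] O z0 + algebraMap k[X] O z1 * t with hw
  have hyw : y - w ^ 2 ∈ J2 Q a t := by
    have e : y - w ^ 2 = (y - z ^ 2) + (z + w) * (z - w) := by ring
    rw [e]
    exact Ideal.add_mem _ hyz (Ideal.mul_mem_left _ _ hz01)
  have hyv : y = algebraMap k[X] O (v 0) + algebraMap k[X] O (v 1) * t +
      algebraMap k[X] O (v 2) * t ^ 2 := by
    apply IsFractionRing.injective O L
    unfold Crd at hv
    simp only [map_add, map_mul, map_pow, hv, ← IsScalarTower.algebraMap_apply k[X] O L, ht]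
  have hcd : algebraMap k[X] O (v 0 - a * v 2 - (z0 ^ 2 - a * z1 ^ 2)) +
      algebraMap k[X] O (v 1 - 2 * z0 * z1) * t ∈ J2 Q a t := by
    have e : algebraMap k[X] O (v 0 - a * v 2 - (z0 ^ 2 - a * z1 ^ 2)) +
      algebraMap k[X] O (v 1 - 2 * z0 * z1) * t = (y - w ^ 2) -
        algebraMap k[X] O (v 2 - z1 ^ 2) * (t ^ 2 + algebraMap k[X] O a) := by
      rw [hw, hyv]
      simp only [map_sub, map_mul, map_pow, map_ofNat]
      ring
    rw [e]
    exact Ideal.sub_mem _ hyw (Ideal.mul_mem_left _ _ (t_mem_J2 Q a t))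
  obtain ⟨⟨c1, e1⟩, d1, e2⟩ := mem_J2_iff (K := K) (L := L) hI h6 h hsq hQ hQb hns ht hcd
  -- `n = z0 ^ 2 + a z1 ^ 2` is prime to `Q`
  have hnn : ¬ Q ∣ z0 ^ 2 + a * z1 ^ 2 := by
    intro hd
    obtain ⟨⟨c', hc'⟩, d', hd'⟩ := nonres hQ hns hd
    apply hy2
    rw [h2]
    have e : y = (y - w ^ 2) + w * (algebraMap k[X] O c' + algebraMap k[X] O d' * t) *
        algebraMap k[X] O Q := by
      have : w = (algebraMap k[X] O c' + algebraMap k[X] O d' * t) * algebraMap k[X] O Q := by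
        rw [hw, hc', hd', map_mul, map_mul]
        ring
      linear_combination w * this
    rw [e]
    exact Ideal.add_mem _ hyw (Ideal.mul_mem_left _ _ (Q_mem_J2 Q a t))
  obtain ⟨u', u, hu⟩ := (hQ.coprime_iff_not_dvd).mpr hnn
  obtain ⟨b', rfl⟩ := hQb
  have e3 : v 0 - a * v 2 = z0 ^ 2 - a * z1 ^ 2 + Q * c1 := by linear_combination e1
  have e4 : v 1 = 2 * z0 * z1 + Q * d1 := by linear_combination e2
  have e5 : Q ∣ v 0 * (z0 ^ 2 + a * z1 ^ 2) ^ 2 - m * m := by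
    rw [← hm]
    have e6 : dn a (Q * b') v = v 0 * ((v 0 - a * v 2) ^ 2 + a * v 1 ^ 2) +
        Q * (v 0 * b' * v 2 * v 1 +
          b' * v 2 * (v 1 * (v 0 - a * v 2) - (-(Q * b') * v 2 - a * v 1) * v 2)
          - b' * v 1 * (v 1 * v 1 - (v 0 - a * v 2) * v 2)) := by
      simp only [dn]
      ring
    rw [e6, e3, e4]
    refine ⟨-(v 0 * (c1 * (2 * (z0 ^ 2 - a * z1 ^ 2) + Q * c1) +
      a * d1 * (4 * z0 * z1 + Q * d1))) - (v 0 * b' * v 2 * (2 * z0 * z1 + Q * d1) +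
          b' * v 2 * ((2 * z0 * z1 + Q * d1) * (z0 ^ 2 - a * z1 ^ 2 + Q * c1) -
            (-(Q * b') * v 2 - a * (2 * z0 * z1 + Q * d1)) * v 2)
          - b' * (2 * z0 * z1 + Q * d1) * ((2 * z0 * z1 + Q * d1) * (2 * z0 * z1 + Q * d1) -
            (z0 ^ 2 - a * z1 ^ 2 + Q * c1) * v 2)), ?_⟩
    ring
  obtain ⟨f, hf⟩ := e5
  have e7 : v 0 - (u * m) ^ 2 = Q * (v 0 * u' * (1 + u * (z0 ^ 2 + a * z1 ^ 2)) + u ^ 2 * f) := by
    linear_combination (-(v 0 * (1 + u * (z0 ^ 2 + a * z1 ^ 2)))) * hu + u ^ 2 * hf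
  refine ⟨algebraMap k[X] L (u * m), ?_⟩
  rw [hv1, ← map_pow, IsScalarTower.algebraMap_apply k[X] O L, ← map_sub]
  refine (𝔓.valuation_lt_one_iff_mem (K := L) _).mpr ?_
  rw [h1]
  have e8 : y - algebraMap k[X] O ((u * m) ^ 2) =
      (algebraMap k[X] O (v 1) + algebraMap k[X] O (v 2) * t) * t +
      algebraMap k[X] O (v 0 * u' * (1 + u * (z0 ^ 2 + a * z1 ^ 2)) + u ^ 2 * f) *
        algebraMap k[X] O Q := by
    rw [← map_mul, mul_comm _ Q, ← e7, hyv, map_sub]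
    ring
  rw [e8]
  exact Ideal.add_mem _ (Ideal.mul_mem_left _ _ (t_mem_J1 Q t))
    (Ideal.mul_mem_left _ _ (Q_mem_J1 Q t))

end ns

/-- **NS.** -/
theorem ns (hI : S_INT) : S_NS := by
  intro k K L O _ _ _ _ _ _ _ _ _ _ _ _ _ _ _ _ a b θ h6 h hsq Q hQ hQb hns x hx hnx hev hs1 𝔓 hov
  obtain ⟨t, ht, htr⟩ := exists_theta (K := K) (O := O) h
  have hval : ∀ 𝔓 : HeightOneSpectrum O, (𝔓.valuation L θ < 1 ↔ t ∈ 𝔓.asIdeal) := by
    intro 𝔓
    rw [← ht]
    exact 𝔓.valuation_lt_one_iff_mem (K := L) _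
  have hval' : ∀ 𝔓 : HeightOneSpectrum O, (𝔓.valuation L θ = 1 ↔ t ∉ 𝔓.asIdeal) := by
    intro 𝔓
    rw [← ht]
    exact 𝔓.valuation_eq_one_iff_notMem (K := L)
  rcases eq_J hI h6 h hsq hQ hQb hns ht htr hov with h1 | h1
  swap
  · exact hs1 𝔓 hov ((hval' 𝔓).mpr h1.1)
  have hQ0 : algebraMap k[X] O Q ≠ 0 := by
    intro h0
    exact hQ.ne_zero (algO_inj (K := K) (L := L) (by rw [h0, map_zero]))
  have hb2 : (J2 Q a t : Ideal O) ≠ ⊥ := fun h0 => hQ0 (by
    have := Q_mem_J2 (O := O) Q a t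
    rwa [h0, Ideal.mem_bot] at this)
  have hm2 := J2_max (K := K) (L := L) hI h6 h hsq hQ hQb hns ht
  let 𝔮 : HeightOneSpectrum O := ⟨J2 Q a t, hm2.isPrime, hb2⟩
  have ov2 : Ov Q 𝔮 := Q_mem_J2 Q a t
  have h2 : 𝔮.asIdeal = J2 Q a t := rfl
  have hnt : t ∉ 𝔮.asIdeal := by
    intro hm
    have : algebraMap k[X] O a ∈ 𝔮.asIdeal := by
      have h1 := 𝔮.asIdeal.sub_mem (t_mem_J2 Q a t) (𝔮.asIdeal.mul_mem_left t hm)
      convert h1 using 1
      ring
    rw [ov_iff hQ ov2] at this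
    exact hns 0 (by simpa using this)
  have hne : 𝔓 ≠ 𝔮 := fun h0 => hnt (h0 ▸ h1.1)
  have hsq2 : Sq1 𝔮 x := hs1 𝔮 ov2 ((hval' 𝔮).mpr hnt)
  obtain ⟨y1, hy1⟩ := hev 𝔓 hov ((hval 𝔓).mpr h1.1)
  -- `Sq1` implies `Ev`
  obtain ⟨s, hs⟩ := hsq2
  have hvs : 𝔮.valuation L x = 𝔮.valuation L s ^ 2 := by
    have h3 : 𝔮.valuation L (x - (x - s ^ 2)) = 𝔮.valuation L x :=
      Valuation.map_sub_eq_of_lt_left _ hs
    rw [sub_sub_cancel, map_pow] at h3
    exact h3.symm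
  have hvx1 : 𝔓.valuation L x ≠ 0 := (Valuation.ne_zero_iff _).mpr hx
  have hvx2 : 𝔮.valuation L x ≠ 0 := (Valuation.ne_zero_iff _).mpr hx
  have hy10 : 𝔓.valuation L y1 ≠ 0 := by
    intro h0
    rw [h0] at hy1
    exact hvx1 (by rw [hy1]; simp)
  have hs0 : 𝔮.valuation L s ≠ 0 := by
    intro h0
    rw [h0] at hvs
    exact hvx2 (by rw [hvs]; simp)
  obtain ⟨β, hβ0, hβ1, hβ2⟩ := exists_two (L := L) hne (log (𝔓.valuation L y1))
    (log (𝔮.valuation L s))
  rw [exp_log hy10] at hβ1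
  rw [exp_log hs0] at hβ2
  -- `x / β ^ 2` is a unit at both primes
  have hu1 : 𝔓.valuation L (x / β ^ 2) = 1 := by
    rw [map_div₀, map_pow, hβ1, ← hy1, div_self hvx1]
  have hu2 : 𝔮.valuation L (x / β ^ 2) = 1 := by
    rw [map_div₀, map_pow, hβ2, ← hvs, div_self hvx2]
  obtain ⟨c, z, hc, hz⟩ := exists_den_Q (O := O) h hQ (x / β ^ 2) (by
    intro 𝔓' hov'
    rcases eq_J hI h6 h hsq hQ hQb hns ht htr hov' with h' | h'
    · have : 𝔓' = 𝔓 := HeightOneSpectrum.ext (h'.2.trans h1.2.symm)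
      rw [this, hu1]
    · have : 𝔓' = 𝔮 := HeightOneSpectrum.ext h'.2
      rw [this, hu2])
  have hc0 : algebraMap k[X] L c ≠ 0 := by
    intro h0
    have : c = 0 := algL_inj (K := K) (by rw [h0, map_zero])
    exact hc (by rw [this]; exact dvd_zero Q)
  have hvc : ∀ 𝔓 : HeightOneSpectrum O, Ov Q 𝔓 → 𝔓.valuation L (algebraMap k[X] L c) = 1 := by
    intro 𝔓' hov'
    rw [IsScalarTower.algebraMap_apply k[X] O L]
    refine 𝔓'.valuation_eq_one_iff_notMem.mpr ?_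
    rw [ov_iff hQ hov']
    exact hc
  -- `y = c ^ 2 x / β ^ 2`
  have hy : algebraMap O L (algebraMap k[X] O c * z) = x * (algebraMap k[X] L c / β) ^ 2 := by
    rw [map_mul, ← hz, ← IsScalarTower.algebraMap_apply k[X] O L]
    field_simp
  have hcβ : algebraMap k[X] L c / β ≠ 0 := div_ne_zero hc0 hβ0
  rw [← sq1_mul_sq hcβ, ← hy]
  refine ns_int hI h6 h hsq hQ hQb hns ht htr h1.2 h2 ?_ ?_ ?_ ?_
  · rw [← 𝔓.valuation_eq_one_iff_notMem (K := L), hy, map_mul, map_pow, map_div₀, hvc 𝔓 hov,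
      hβ1, hy1, div_pow, one_pow, mul_one_div, div_self (pow_ne_zero 2 hy10)]
  · rw [← 𝔮.valuation_eq_one_iff_notMem (K := L), hy, map_mul, map_pow, map_div₀, hvc 𝔮 ov2,
      hβ2, hvs, div_pow, one_pow, mul_one_div, div_self (pow_ne_zero 2 hs0)]
  · rw [hy, map_mul, map_pow]
    exact hnx.mul (IsSquare.sq _)
  · rw [hy, sq1_mul_sq hcβ]
    exact ⟨s, hs⟩

end Pool.Agent.N862.PP
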