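import Pool.Agent.N862.PP.Exq

/-!
# Norms in the cubic field (project PP of helper874)

By helper862. `O` is a finite free module over `k[X]`, the norm in coordinates, the parity of
the valuations of an element whose norm is a square.
-/

set_option autoImplicit false
set_option linter.all false

open Polynomial IsDedekindDomain WithZero UniqueFactorizationMonoid
open scoped Classical

namespace Pool.Agent.N862.PP

open Pool.Agent.N874.PP

/-- The norm of `v 0 + v 1 θ + v 2 θ ^ 2`. -/
noncomputable def dn {k : Type} [Field k] (a b : k[X]) (v : Fin 3 → k[X]) : k[X] :=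
  v 0 * ((v 0 - a * v 2) * (v 0 - a * v 2) - (-b * v 2 - a * v 1) * v 1)
    - (-b * v 2) * (v 1 * (v 0 - a * v 2) - (-b * v 2 - a * v 1) * v 2)
    + (-b * v 1) * (v 1 * v 1 - (v 0 - a * v 2) * v 2)

section nrm

variable {k K L O : Type} [Field k] [Field K] [Algebra k[X] K] [IsFractionRing k[X] K]
  [Field L] [Algebra K L] [Algebra k[X] L] [IsScalarTower k[X] K L] [CommRing O]
  [IsDedekindDomain O] [Algebra O L] [IsFractionRing O L] [Algebra k[X] O]
  [IsScalarTower k[X] O L] [IsIntegralClosure O k[X] L] {a b : k[X]} {θ : L}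

theorem repr_crd (h : IsCub K a b θ) {v : Fin 3 → k[X]} {x : L} (hv : Crd θ v x) (i : Fin 3) :
    h.basis.repr x i = algebraMap k[X] K (v i) := by
  have e : x = ∑ i, algebraMap k[X] K (v i) • h.basis i := by
    simp only [Fin.sum_univ_three, h.basis_apply, vec, Matrix.cons_val_zero, Matrix.cons_val_one,
      Matrix.cons_val, Algebra.smul_def, ← IsScalarTower.algebraMap_apply k[X] K L, mul_one]
    exact hv
  rw [e, Module.Basis.repr_sum_self]

/-- The norm in coordinates. -/
theorem norm_crd (h : IsCub K a b θ) {v : Fin 3 → k[X]} {x : L} (hv : Crd θ v x) :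
    Algebra.norm K x = algebraMap k[X] K (dn a b v) := by
  have h1 := crd_mul_theta h hv
  have h2 := crd_mul_theta h h1
  rw [Algebra.norm_eq_matrix_det h.basis, Matrix.det_fin_three]
  simp only [Algebra.leftMulMatrix_eq_repr_mul, h.basis_apply, vec, Matrix.cons_val_zero,
    Matrix.cons_val_one, Matrix.cons_val, mul_one]
  have e2 : x * θ ^ 2 = θ * (θ * x) := by ring
  rw [e2, mul_comm x θ]
  simp only [repr_crd h hv, repr_crd h h1, repr_crd h h2, Matrix.cons_val_zero,
    Matrix.cons_val_one, Matrix.cons_val]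
  simp only [dn, map_sub, map_mul, map_add, map_neg]
  ring

theorem fin_O (hI : S_INT) (h6 : (6 : k) ≠ 0) (h : IsCub K a b θ) (hsq : Squarefree (dsc a b)) :
    Module.Finite k[X] O := by
  obtain ⟨t, ht, htr⟩ := exists_theta (K := K) (O := O) h
  have : ⊤ ≤ Submodule.span k[X] ({1, t, t ^ 2} : Set O) := by
    intro x _
    obtain ⟨v, hv⟩ := (hI k K L a b θ h6 h hsq _).mp (isInt (L := L) x)
    have : x = v 0 • (1 : O) + v 1 • t + v 2 • t ^ 2 := by
      apply IsFractionRing.injective O L
      unfold Crd at hv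
      simp only [Algebra.smul_def, map_add, map_mul, map_pow, map_one, mul_one, ht, hv,
        ← IsScalarTower.algebraMap_apply k[X] O L]
    rw [this]
    exact Submodule.add_mem _ (Submodule.add_mem _
      (Submodule.smul_mem _ _ (Submodule.subset_span (by simp)))
      (Submodule.smul_mem _ _ (Submodule.subset_span (by simp))))
      (Submodule.smul_mem _ _ (Submodule.subset_span (by simp)))
  exact ⟨⟨{1, t, t ^ 2}, by simpa using top_le_iff.mp this⟩⟩

include K L in
theorem tf_O : Module.IsTorsionFree k[X] O := by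
  have : FaithfulSMul k[X] O := (faithfulSMul_iff_algebraMap_injective k[X] O).mpr
    (algO_inj (K := K) (L := L))
  infer_instance

end nrm

/-- the valuation in terms of the factorisation -/
theorem val_eq {O L : Type} [CommRing O] [IsDedekindDomain O] [Field L] [Algebra O L]
    [IsFractionRing O L] (𝔓 : HeightOneSpectrum O) {z : O} (hz : z ≠ 0) :
    𝔓.valuation L (algebraMap O L z) =
      exp (-((normalizedFactors (Ideal.span {z})).count 𝔓.asIdeal : ℤ)) := by
  have hsr : Ideal.span {z} ≠ 0 := Submodule.span_singleton_eq_bot.mp.mt hz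
  rw [HeightOneSpectrum.valuation_of_algebraMap, 𝔓.intValuation_if_neg hz,
    Ideal.count_associates_factors_eq hsr 𝔓.isPrime 𝔓.ne_bot]

theorem ev_iff_count {O L : Type} [CommRing O] [IsDedekindDomain O] [Field L] [Algebra O L]
    [IsFractionRing O L] (𝔓 : HeightOneSpectrum O) {z : O} (hz : z ≠ 0) :
    Ev 𝔓 (algebraMap O L z) ↔ Even ((normalizedFactors (Ideal.span {z})).count 𝔓.asIdeal) := by
  rw [not_ev_of_exp (val_eq 𝔓 hz), even_neg, Int.even_coe_nat]

theorem ev_mul_sq {O L : Type} [CommRing O] [IsDedekindDomain O] [Field L] [Algebra O L]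
    [IsFractionRing O L] (𝔓 : HeightOneSpectrum O) {x w : L} (hw : w ≠ 0) :
    Ev 𝔓 (x * w ^ 2) ↔ Ev 𝔓 x := by
  have hw0 : 𝔓.valuation L w ≠ 0 := (Valuation.ne_zero_iff _).mpr hw
  constructor
  · rintro ⟨y, hy⟩
    refine ⟨y / w, ?_⟩
    rw [map_mul, map_pow] at hy
    rw [map_div₀, div_pow, ← hy, mul_div_cancel_right₀ _ (pow_ne_zero 2 hw0)]
  · rintro ⟨y, hy⟩
    refine ⟨y * w, ?_⟩
    rw [map_mul, map_mul, map_pow, mul_pow, hy]

section rel

variable {R S : Type} [CommRing R] [IsDedekindDomain R] [CommRing S] [IsDedekindDomain S]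
  [Algebra R S] [Module.Finite R S] [Module.IsTorsionFree R S]

/-- The number of factors `p` in the norm. -/
noncomputable def cn (R : Type) {S : Type} [CommRing R] [IsDedekindDomain R] [CommRing S]
    [IsDedekindDomain S] [Algebra R S] [Module.Finite R S] [Module.IsTorsionFree R S]
    (p : Ideal R) (I : Ideal S) : ℕ :=
  (normalizedFactors (Ideal.relNorm R I)).count p

theorem cn_prod (p : Ideal R) (s : Multiset (Ideal S)) (hs : ∀ I ∈ s, I ≠ ⊥) :
    cn R p s.prod = (s.map (cn R p)).sum := by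
  induction s using Multiset.induction with
  | empty => simp [cn, ← Ideal.one_eq_top]
  | cons I s ih =>
    have h1 : I ≠ ⊥ := hs I (by simp)
    have h2 : ∀ J ∈ s, J ≠ ⊥ := fun J hJ => hs J (Multiset.mem_cons_of_mem hJ)
    have h3 : s.prod ≠ 0 := by
      rw [Ne, Multiset.prod_eq_zero_iff]
      exact fun h0 => h2 _ h0 rfl
    rw [Multiset.prod_cons, Multiset.map_cons, Multiset.sum_cons, ← ih h2]
    unfold cn
    rw [map_mul, normalizedFactors_mul, Multiset.count_add]
    · exact fun h0 => h1 (Ideal.relNorm_eq_bot_iff.mp h0)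
    · exact fun h0 => h3 (Ideal.relNorm_eq_bot_iff.mp h0)

theorem cn_sum (p : Ideal R) {I : Ideal S} (hI : I ≠ ⊥) :
    cn R p I = ∑ P ∈ (normalizedFactors I).toFinset, (normalizedFactors I).count P * cn R p P := by
  have h1 := cn_prod p (normalizedFactors I) (fun J hJ => by
    rintro rfl
    exact zero_notMem_normalizedFactors _ hJ)
  rw [Finset.sum_multiset_map_count] at h1
  simp only [smul_eq_mul] at h1
  rw [← h1]
  congr 1
  exact (associated_iff_eq.mp (prod_normalizedFactors hI)).symm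

/-- primes not over `p` do not contribute -/
theorem cn_zero {p : Ideal R} (hp : p.IsPrime) (hp0 : p ≠ ⊥) {P : Ideal S} (hP : P.IsPrime)
    (hP0 : P ≠ ⊥) (h : ¬ p ≤ P.comap (algebraMap R S)) : cn R p P = 0 := by
  unfold cn
  rw [Multiset.count_eq_zero]
  intro hm
  have hdvd := dvd_of_mem_normalizedFactors hm
  rw [Ideal.dvd_iff_le] at hdvd
  let p' := P.comap (algebraMap R S)
  have hp' : p'.IsPrime := Ideal.IsPrime.comap _
  have : P.LiesOver p' := ⟨rfl⟩
  obtain ⟨s, hs⟩ := Ideal.exists_relNorm_eq_pow_of_isPrime P p'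
  rw [hs] at hdvd
  have h1 : p' ≤ p := hp.le_of_pow_le hdvd
  have h2 : p' ≠ ⊥ := by
    intro h0
    have h3 := Ideal.relNorm_le_comap R P
    change _ ≤ p' at h3
    rw [h0, le_bot_iff, Ideal.relNorm_eq_bot_iff] at h3
    exact hP0 h3
  have h3 : p'.IsMaximal := hp'.isMaximal h2
  exact h (h3.eq_of_le hp.ne_top h1).ge

/-- the relative norm of a prime over `p` is `p ^ s` with `1 ≤ s` -/
theorem cn_pow {p : Ideal R} (hp : p.IsPrime) (hp0 : p ≠ ⊥) {P : Ideal S} (hP : P.IsPrime)
    (h : P.comap (algebraMap R S) = p) : Ideal.relNorm R P = p ^ (cn R p P) ∧ 1 ≤ cn R p P := by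
  have : P.LiesOver p := ⟨h.symm⟩
  obtain ⟨s, hs⟩ := Ideal.exists_relNorm_eq_pow_of_isPrime P p
  have hirr : Irreducible p := (Ideal.prime_of_isPrime hp0 hp).irreducible
  have h1 : cn R p P = s := by
    unfold cn
    rw [hs, normalizedFactors_pow, Multiset.count_nsmul, normalizedFactors_irreducible hirr,
      normalize_eq, Multiset.count_singleton_self, mul_one]
  refine ⟨by rw [h1, hs], ?_⟩
  rw [h1]
  by_contra hs0
  have hs0 : s = 0 := by omega
  rw [hs0, pow_zero, Ideal.one_eq_top] at hs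
  have h2 := Ideal.relNorm_le_comap R P
  rw [hs, h, top_le_iff] at h2
  exact hp.ne_top h2

/-- an element with norm not divisible by the square of `p` -/
theorem cn_one {p : Ideal R} (hp : p.IsPrime) (hp0 : p ≠ ⊥) {P : Ideal S} (hP : P.IsPrime)
    (h : P.comap (algebraMap R S) = p) {z : S} (hz : z ∈ P)
    (hn : Algebra.intNorm R S z ∉ p ^ 2) : cn R p P = 1 := by
  obtain ⟨h1, h2⟩ := cn_pow hp hp0 hP h
  have h3 : Algebra.intNorm R S z ∈ Ideal.relNorm R P := by
    rw [← Ideal.spanNorm_eq]
    exact Ideal.intNorm_mem_spanNorm R hz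
  rw [h1] at h3
  by_contra hne
  have : 2 ≤ cn R p P := by omega
  exact hn (Ideal.pow_le_pow_right this h3)

end rel

section par

variable {k K L O : Type} [Field k] [Field K] [Algebra k[X] K] [IsFractionRing k[X] K]
  [Field L] [Algebra K L] [Algebra k[X] L] [IsScalarTower k[X] K L] [CommRing O]
  [IsDedekindDomain O] [Algebra O L] [IsFractionRing O L] [Algebra k[X] O]
  [IsScalarTower k[X] O L] [IsIntegralClosure O k[X] L] {a b : k[X]} {θ : L}

/-- the integral norm in coordinates -/
theorem intNorm_crd [Module.Finite k[X] O] [Module.IsTorsionFree k[X] O]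
    (h : IsCub K a b θ) {v : Fin 3 → k[X]} {x : O}
    (hv : Crd θ v (algebraMap O L x)) : Algebra.intNorm k[X] O x = dn a b v := by
  have hfd : FiniteDimensional K L := Module.finite_of_finrank_pos (by rw [h.rank]; norm_num)
  apply IsFractionRing.injective k[X] K
  rw [Algebra.algebraMap_intNorm (L := L), norm_crd h hv]

/-- Parity. -/
theorem parity [Module.Finite k[X] O] [Module.IsTorsionFree k[X] O] (h : IsCub K a b θ)
    {P : k[X]} (hP : Irreducible P) (𝔓₀ : HeightOneSpectrum O) (hov : Ov P 𝔓₀)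
    (hodd : Odd (cn k[X] (Ideal.span {P}) 𝔓₀.asIdeal)) {x : L} (hx : x ≠ 0)
    (hsq : IsSquare (Algebra.norm K x))
    (hoth : ∀ 𝔓 : HeightOneSpectrum O, Ov P 𝔓 → 𝔓 ≠ 𝔓₀ → Ev 𝔓 x ∨
      Even (cn k[X] (Ideal.span {P}) 𝔓.asIdeal)) : Ev 𝔓₀ x := by
  have hfd : FiniteDimensional K L := Module.finite_of_finrank_pos (by rw [h.rank]; norm_num)
  obtain ⟨z₁, w, hw, rfl⟩ := IsFractionRing.div_surjective (A := O) x
  have hw0 : w ≠ 0 := nonZeroDivisors.ne_zero hw
  have hwL : algebraMap O L w ≠ 0 := by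
    simpa using hw0
  -- `z = z₁ w`
  have hz0 : z₁ * w ≠ 0 := by
    rintro h0
    rcases mul_eq_zero.mp h0 with rfl | h0
    · simp at hx
    · exact hw0 h0
  have hxz : algebraMap O L z₁ / algebraMap O L w * algebraMap O L w ^ 2 =
      algebraMap O L (z₁ * w) := by
    rw [map_mul]
    field_simp
  have hev : ∀ 𝔓 : HeightOneSpectrum O, Ev 𝔓 (algebraMap O L z₁ / algebraMap O L w) ↔
      Even ((normalizedFactors (Ideal.span {z₁ * w})).count 𝔓.asIdeal) := by
    intro 𝔓
    rw [← ev_mul_sq 𝔓 hwL, hxz, ev_iff_count 𝔓 hz0]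
  have hpp : (Ideal.span {P} : Ideal k[X]).IsPrime :=
    (Ideal.span_singleton_prime hP.ne_zero).mpr hP.prime
  have hpb : (Ideal.span {P} : Ideal k[X]) ≠ ⊥ := by
    rw [Ne, Ideal.span_singleton_eq_bot]
    exact hP.ne_zero
  -- the norm is a square
  have hnsq : ∃ m : k[X], Algebra.intNorm k[X] O (z₁ * w) = m * m := by
    have h1 : IsSquare (algebraMap k[X] K (Algebra.intNorm k[X] O (z₁ * w))) := by
      rw [Algebra.algebraMap_intNorm (L := L), ← hxz, map_mul, map_pow]
      exact hsq.mul (IsSquare.sq _)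
    obtain ⟨r, hr⟩ := h1
    have hint : IsIntegral k[X] r := by
      refine IsIntegral.of_pow (n := 2) (by norm_num) ?_
      rw [sq, ← hr]
      exact isIntegral_algebraMap
    obtain ⟨m, rfl⟩ := IsIntegrallyClosed.isIntegral_iff.mp hint
    exact ⟨m, IsFractionRing.injective k[X] K (by rw [hr, map_mul])⟩
  obtain ⟨m, hm⟩ := hnsq
  have hzI : (Ideal.span {z₁ * w} : Ideal O) ≠ ⊥ := by
    rw [Ne, Ideal.span_singleton_eq_bot]
    exact hz0
  have hm0 : m ≠ 0 := by
    rintro rfl
    have := (Algebra.intNorm_eq_zero (A := k[X]) (B := O)).mp (hm.trans (mul_zero _))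
    exact hz0 this
  have heven : Even (cn k[X] (Ideal.span {P}) (Ideal.span {z₁ * w} : Ideal O)) := by
    unfold cn
    rw [Ideal.relNorm_singleton, hm, ← Ideal.span_singleton_mul_span_singleton,
      normalizedFactors_mul, Multiset.count_add]
    · exact ⟨_, rfl⟩
    · simpa using hm0
    · simpa using hm0
  rw [cn_sum _ hzI] at heven
  rw [hev]
  by_cases hmem : 𝔓₀.asIdeal ∈ (normalizedFactors (Ideal.span {z₁ * w} : Ideal O)).toFinset
  · rw [← Finset.add_sum_erase _ _ hmem] at heven
    have hrest : Even (∑ J ∈ (normalizedFactors (Ideal.span {z₁ * w} : Ideal O)).toFinset.erase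
        𝔓₀.asIdeal, (normalizedFactors (Ideal.span {z₁ * w} : Ideal O)).count J *
          cn k[X] (Ideal.span {P}) J) := by
      apply Finset.even_sum
      intro J hJ
      rw [Finset.mem_erase, Multiset.mem_toFinset] at hJ
      obtain ⟨hJ1, hJ2⟩ := hJ
      have hJp := prime_of_normalized_factor J hJ2
      have hJ3 : J.IsPrime := Ideal.isPrime_of_prime hJp
      by_cases hJP : (Ideal.span {P} : Ideal k[X]) ≤ J.comap (algebraMap k[X] O)
      · let 𝔓 : HeightOneSpectrum O := ⟨J, hJ3, hJp.ne_zero⟩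
        have hov' : Ov P 𝔓 := hJP (Ideal.mem_span_singleton_self P)
        have hne : 𝔓 ≠ 𝔓₀ := fun h0 => hJ1 (by rw [← h0])
        rcases hoth 𝔓 hov' hne with h1 | h1
        · exact ((hev 𝔓).mp h1).mul_right _
        · exact h1.mul_left _
      · rw [cn_zero hpp hpb hJ3 hJp.ne_zero hJP, mul_zero]
        exact ⟨0, rfl⟩
    have h1 := (Nat.even_add.mp heven).mpr hrest
    rcases Nat.even_mul.mp h1 with h2 | h2
    · exact h2
    · exact absurd h2 (Nat.not_even_iff_odd.mpr hodd)
  · rw [Multiset.mem_toFinset] at hmem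
    rw [Multiset.count_eq_zero_of_notMem hmem]
    exact ⟨0, rfl⟩

end par

end Pool.Agent.N862.PP
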