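import Pool.Agent.N862.PP.Nrm

/-!
# Parities from the norm (project PP of helper874)

By helper862. The main theorems are `par : S_INT → S_PAR` and `parq : S_INT → S_PARQ`.
-/

set_option autoImplicit false
set_option linter.all false

open Polynomial IsDedekindDomain WithZero UniqueFactorizationMonoid
open scoped Classical

namespace Pool.Agent.N862.PP

open Pool.Agent.N874.PP

section par

variable {k K L O : Type} [Field k] [Field K] [Algebra k[X] K] [IsFractionRing k[X] K]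
  [Field L] [Algebra K L] [Algebra k[X] L] [IsScalarTower k[X] K L] [CommRing O]
  [IsDedekindDomain O] [Algebra O L] [IsFractionRing O L] [Algebra k[X] O]
  [IsScalarTower k[X] O L] [IsIntegralClosure O k[X] L] {a b : k[X]} {θ : L}

theorem sqf_root {k : Type} [Field k] {a b : k[X]} (hsq : Squarefree (dsc a b)) {P : k[X]}
    (hP : Irreducible P) (c : k[X]) :
    ∃ c', P ∣ c' - c ∧ ¬ P ^ 2 ∣ c' ^ 3 + a * c' + b := by
  by_contra hno
  push Not at hno
  obtain ⟨e, he⟩ := hno c (by simp)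
  obtain ⟨e', he'⟩ := hno (c + P) (by simp)
  have h1 : P * (3 * c ^ 2 + a) = P * (P * (e' - e - 3 * c - P)) := by
    linear_combination he' - he
  have h2 := mul_left_cancel₀ hP.ne_zero h1
  have h3 : P * P ∣ dsc a b := by
    refine ⟨(e' - e - 3 * c - P) ^ 2 * (4 * (3 * c ^ 2 + a) - 9 * c ^ 2) +
      e * (27 * (c ^ 3 + a * c + b) + 108 * c ^ 3 - 54 * c * (3 * c ^ 2 + a)), ?_⟩
    unfold dsc
    linear_combination (27 * (c ^ 3 + a * c + b) + 108 * c ^ 3 - 54 * c * (3 * c ^ 2 + a)) * he +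
      (4 * (3 * c ^ 2 + a) - 9 * c ^ 2) * ((3 * c ^ 2 + a) + P * (e' - e - 3 * c - P)) * h2
  exact hP.not_isUnit (hsq P h3)

theorem dn_lin {k : Type} [Field k] (a b c : k[X]) :
    dn a b ![-c, 1, 0] = - (c ^ 3 + a * c + b) := by
  simp only [dn, Matrix.cons_val_zero, Matrix.cons_val_one, Matrix.cons_val]
  ring

/-- primes of degree one -/
theorem cn_deg_one [Module.Finite k[X] O] [Module.IsTorsionFree k[X] O] (h : IsCub K a b θ)
    (hsq : Squarefree (dsc a b)) {P : k[X]} (hP : Irreducible P) {𝔓 : HeightOneSpectrum O}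
    (hov : Ov P 𝔓) {t : O} (ht : algebraMap O L t = θ) {c : k[X]}
    (hc : t - algebraMap k[X] O c ∈ 𝔓.asIdeal) :
    cn k[X] (Ideal.span {P}) 𝔓.asIdeal = 1 := by
  have hpp : (Ideal.span {P} : Ideal k[X]).IsPrime :=
    (Ideal.span_singleton_prime hP.ne_zero).mpr hP.prime
  have hpb : (Ideal.span {P} : Ideal k[X]) ≠ ⊥ := by
    rw [Ne, Ideal.span_singleton_eq_bot]
    exact hP.ne_zero
  obtain ⟨c', ⟨d, hd⟩, hc'⟩ := sqf_root hsq hP c
  refine cn_one hpp hpb 𝔓.isPrime ?_ (z := t - algebraMap k[X] O c') ?_ ?_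
  · ext x
    rw [Ideal.mem_comap, ov_iff hP hov, Ideal.mem_span_singleton]
  · have : t - algebraMap k[X] O c' = (t - algebraMap k[X] O c) -
        algebraMap k[X] O d * algebraMap k[X] O P := by
      have hd' : c' = c + P * d := by linear_combination hd
      rw [hd', map_add, map_mul]
      ring
    rw [this]
    exact 𝔓.asIdeal.sub_mem hc (𝔓.asIdeal.mul_mem_left _ hov)
  · have hcr : Crd θ ![-c', 1, 0] (algebraMap O L (t - algebraMap k[X] O c')) := by
      unfold Crd
      simp only [Matrix.cons_val_zero, Matrix.cons_val_one, Matrix.cons_val, map_sub, ht,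
        map_neg, map_one, map_zero, ← IsScalarTower.algebraMap_apply k[X] O L]
      ring
    rw [intNorm_crd h hcr, dn_lin, Ideal.neg_mem_iff, Ideal.span_singleton_pow,
      Ideal.mem_span_singleton]
    exact hc'

end par

/-- **PAR.** -/
theorem par (hI : S_INT) : S_PAR := by
  intro k K L O _ _ _ _ _ _ _ _ _ _ _ _ _ _ _ a b θ h6 h hsq P hP 𝔓₀ c hov hθ x hx hnx hoth
  obtain ⟨t, ht, htr⟩ := exists_theta (K := K) (O := O) h
  have hfin : Module.Finite k[X] O := fin_O (K := K) (L := L) hI h6 h hsq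
  have htf : Module.IsTorsionFree k[X] O := tf_O (K := K) (L := L)
  have hc : t - algebraMap k[X] O c ∈ 𝔓₀.asIdeal := by
    rw [← 𝔓₀.valuation_lt_one_iff_mem (K := L)]
    change 𝔓₀.valuation L (algebraMap O L (t - algebraMap k[X] O c)) < 1
    rw [map_sub, ht, ← IsScalarTower.algebraMap_apply k[X] O L]
    exact hθ
  have h1 := cn_deg_one h hsq hP hov ht hc
  exact parity h hP 𝔓₀ hov (by rw [h1]; exact odd_one) hx hnx
    fun 𝔓 ho hne => Or.inl (hoth 𝔓 ho hne)

/-- the degrees of the two primes over `Q` -/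
theorem cn_deg_two (hI : S_INT) {k K L O : Type} [Field k] [Field K] [Algebra k[X] K]
    [IsFractionRing k[X] K]
    [Field L] [Algebra K L] [Algebra k[X] L] [IsScalarTower k[X] K L] [CommRing O]
    [IsDedekindDomain O] [Algebra O L] [IsFractionRing O L] [Algebra k[X] O]
    [IsScalarTower k[X] O L] [IsIntegralClosure O k[X] L] {a b : k[X]} {θ : L}
    [Module.Finite k[X] O] [Module.IsTorsionFree k[X] O] (h6 : (6 : k) ≠ 0) (h : IsCub K a b θ)
    (hsq : Squarefree (dsc a b)) {Q : k[X]} (hQ : Irreducible Q) (hQb : Q ∣ b)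
    (hns : ∀ z : k[X], ¬ Q ∣ z ^ 2 + a) {t : O} (ht : algebraMap O L t = θ)
    (htr : t ^ 3 + algebraMap k[X] O a * t + algebraMap k[X] O b = 0) :
    cn k[X] (Ideal.span {Q}) (J1 Q t) = 1 ∧ cn k[X] (Ideal.span {Q}) (J2 Q a t) = 2 := by
  have hQ0 : algebraMap k[X] O Q ≠ 0 := by
    intro h0
    exact hQ.ne_zero (algO_inj (K := K) (L := L) (by rw [h0, map_zero]))
  have hb1 : (J1 Q t : Ideal O) ≠ ⊥ := fun h0 => hQ0 (by
    have := Q_mem_J1 (O := O) Q t
    rwa [h0, Ideal.mem_bot] at this)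
  have hb2 : (J2 Q a t : Ideal O) ≠ ⊥ := fun h0 => hQ0 (by
    have := Q_mem_J2 (O := O) Q a t
    rwa [h0, Ideal.mem_bot] at this)
  have hm1 := J1_max (K := K) (L := L) hI h6 h hsq hQ hQb ht
  let 𝔓₁ : HeightOneSpectrum O := ⟨J1 Q t, hm1.isPrime, hb1⟩
  have ov1 : Ov Q 𝔓₁ := Q_mem_J1 Q t
  have h1 : cn k[X] (Ideal.span {Q}) (J1 Q t) = 1 := by
    have := cn_deg_one (𝔓 := 𝔓₁) (c := 0) h hsq hQ ov1 ht (by
      rw [map_zero, sub_zero]
      exact t_mem_J1 Q t)
    exact this
  refine ⟨h1, ?_⟩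
  have h2 := cn_prod (R := k[X]) (Ideal.span {Q}) ({J1 Q t, J2 Q a t} : Multiset (Ideal O)) (by
    intro I hI'
    simp only [Multiset.insert_eq_cons, Multiset.mem_cons, Multiset.mem_singleton] at hI'
    rcases hI' with rfl | rfl
    · exact hb1
    · exact hb2)
  have h3 : cn k[X] (Ideal.span {Q}) (Ideal.span {algebraMap k[X] O Q} : Ideal O) = 3 := by
    have hcr : Crd θ ![Q, 0, 0] (algebraMap O L (algebraMap k[X] O Q)) := by
      unfold Crd
      simp [← IsScalarTower.algebraMap_apply k[X] O L]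
    have hn : Algebra.intNorm k[X] O (algebraMap k[X] O Q) = Q ^ 3 := by
      rw [intNorm_crd h hcr]
      simp only [dn, Matrix.cons_val_zero, Matrix.cons_val_one, Matrix.cons_val]
      ring
    have hirr : Irreducible (Ideal.span {Q} : Ideal k[X]) :=
      (Ideal.prime_of_isPrime (by simpa using hQ.ne_zero)
        ((Ideal.span_singleton_prime hQ.ne_zero).mpr hQ.prime)).irreducible
    unfold cn
    rw [Ideal.relNorm_singleton, hn, ← Ideal.span_singleton_pow, normalizedFactors_pow,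
      Multiset.count_nsmul, normalizedFactors_irreducible hirr, normalize_eq,
      Multiset.count_singleton_self]
  have h4 : ({J1 Q t, J2 Q a t} : Multiset (Ideal O)).prod = J1 Q t * J2 Q a t := by simp
  rw [h4, J1_mul_J2_eq (K := K) (L := L) hI h6 h hsq hQ hQb hns ht htr, h3] at h2
  simp only [Multiset.insert_eq_cons, Multiset.map_cons, Multiset.map_singleton,
    Multiset.sum_cons, Multiset.sum_singleton, h1] at h2
  omega

/-- the primes over `Q` -/
theorem eq_J (hI : S_INT) {k K L O : Type} [Field k] [Field K] [Algebra k[X] K]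
    [IsFractionRing k[X] K]
    [Field L] [Algebra K L] [Algebra k[X] L] [IsScalarTower k[X] K L] [CommRing O]
    [IsDedekindDomain O] [Algebra O L] [IsFractionRing O L] [Algebra k[X] O]
    [IsScalarTower k[X] O L] [IsIntegralClosure O k[X] L] {a b : k[X]} {θ : L}
    (h6 : (6 : k) ≠ 0) (h : IsCub K a b θ)
    (hsq : Squarefree (dsc a b)) {Q : k[X]} (hQ : Irreducible Q) (hQb : Q ∣ b)
    (hns : ∀ z : k[X], ¬ Q ∣ z ^ 2 + a) {t : O} (ht : algebraMap O L t = θ)
    (htr : t ^ 3 + algebraMap k[X] O a * t + algebraMap k[X] O b = 0)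
    {𝔓 : HeightOneSpectrum O} (hov : Ov Q 𝔓) :
    (t ∈ 𝔓.asIdeal ∧ 𝔓.asIdeal = J1 Q t) ∨ (t ∉ 𝔓.asIdeal ∧ 𝔓.asIdeal = J2 Q a t) := by
  have hm1 := J1_max (K := K) (L := L) hI h6 h hsq hQ hQb ht
  have hm2 := J2_max (K := K) (L := L) hI h6 h hsq hQ hQb hns ht
  by_cases hm : t ∈ 𝔓.asIdeal
  · left
    have hle : J1 Q t ≤ 𝔓.asIdeal := by
      rw [J1, Ideal.span_le]
      rintro x (rfl | rfl)
      · exact hov
      · exact hm
    exact ⟨hm, (hm1.eq_of_le 𝔓.isPrime.ne_top hle).symm⟩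
  · right
    have hprod : t * (t ^ 2 + algebraMap k[X] O a) ∈ 𝔓.asIdeal := by
      have : t * (t ^ 2 + algebraMap k[X] O a) = - algebraMap k[X] O b := by
        linear_combination htr
      rw [this]
      exact neg_mem ((ov_iff hQ hov b).mpr hQb)
    have hm' := (𝔓.isPrime.mem_or_mem hprod).resolve_left hm
    have hle : J2 Q a t ≤ 𝔓.asIdeal := by
      rw [J2, Ideal.span_le]
      rintro x (rfl | rfl)
      · exact hov
      · exact hm'
    exact ⟨hm, (hm2.eq_of_le 𝔓.isPrime.ne_top hle).symm⟩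

/-- **PARQ.** -/
theorem parq (hI : S_INT) : S_PARQ := by
  intro k K L O _ _ _ _ _ _ _ _ _ _ _ _ _ _ _ a b θ h6 h hsq Q hQ hQb hns x hx hnx 𝔓 hov hθ
  obtain ⟨t, ht, htr⟩ := exists_theta (K := K) (O := O) h
  have hfin : Module.Finite k[X] O := fin_O (K := K) (L := L) hI h6 h hsq
  have htf : Module.IsTorsionFree k[X] O := tf_O (K := K) (L := L)
  obtain ⟨hc1, hc2⟩ := cn_deg_two hI h6 h hsq hQ hQb hns ht htr
  have ht1 : t ∈ 𝔓.asIdeal := by
    rw [← 𝔓.valuation_lt_one_iff_mem (K := L)]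
    change 𝔓.valuation L (algebraMap O L t) < 1
    rw [ht]
    exact hθ
  have h1 : 𝔓.asIdeal = J1 Q t := by
    rcases eq_J hI h6 h hsq hQ hQb hns ht htr hov with h' | h'
    · exact h'.2
    · exact absurd ht1 h'.1
  refine parity h hQ 𝔓 hov (by rw [h1, hc1]; exact odd_one) hx hnx fun 𝔓' ho hne => Or.inr ?_
  rcases eq_J hI h6 h hsq hQ hQb hns ht htr ho with h' | h'
  · exact absurd (HeightOneSpectrum.ext (h'.2.trans h1.symm)) hne
  · rw [h'.2, hc2]
    exact even_two

end Pool.Agent.N862.PP
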